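import Pool.Agent.Helper49.LC.St

set_option autoImplicit false

namespace Pool.Agent.Helper26.LC

open Pool.Agent.Helper14.LK Pool.Agent.Helper49.LC
open Pool.Agent.Helper14.LE (hd lt mk StLAG StEXL StIEA StIET)
open scoped ContDiff Topology NNReal
open MeasureTheory Set Filter

/-- the gradient of a linear form, in coordinates -/
noncomputable def gr {m : ℕ} (L : EE m →L[ℝ] ℝ) : EE m :=
  ∑ i, L (EuclideanSpace.single i 1) • (EuclideanSpace.single i 1 : EE m)

/-- the square of its norm -/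
noncomputable def sq2 {m : ℕ} (L : EE m →L[ℝ] ℝ) : ℝ := ∑ i, (L (EuclideanSpace.single i 1)) ^ 2

theorem apply_gr {m : ℕ} (L : EE m →L[ℝ] ℝ) : L (gr L) = sq2 L := by
  unfold gr sq2
  rw [map_sum]
  refine Finset.sum_congr rfl (fun i _ => ?_)
  rw [map_smul, smul_eq_mul, sq]

theorem sq2_ne {m : ℕ} {L : EE m →L[ℝ] ℝ} (h : L ≠ 0) : sq2 L ≠ 0 := by
  intro h0
  apply h
  have h1 : ∀ i, L (EuclideanSpace.single i 1) = 0 := by
    intro i
    have h2 := (Finset.sum_eq_zero_iff_of_nonneg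
      (fun i _ => sq_nonneg (L (EuclideanSpace.single i 1)))).1 h0 i (Finset.mem_univ i)
    exact pow_eq_zero_iff (two_ne_zero) |>.1 h2
  apply ContinuousLinearMap.coe_injective
  apply (EuclideanSpace.basisFun (Fin m) ℝ).toBasis.ext
  intro i
  simpa using h1 i

theorem single_last (k : ℕ) :
    (EuclideanSpace.single (Fin.last k) 1 : EE (k + 1)) = mk ((0 : EE k), (1 : ℝ)) := by
  apply Pool.Agent.Helper14.LE.ext_hd_lt
  · rw [Pool.Agent.Helper14.LE.hd_mk]
    ext i
    have : i.castSucc ≠ Fin.last k := (Fin.castSucc_lt_last i).ne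
    simp [Pool.Agent.Helper14.LE.hd_apply, this]
  · rw [Pool.Agent.Helper14.LE.lt_mk, Pool.Agent.Helper14.LE.lt_apply]
    simp

theorem lt_single (k : ℕ) (i : Fin (k + 1)) :
    lt (EuclideanSpace.single i (1 : ℝ) : EE (k + 1)) = if i = Fin.last k then 1 else 0 := by
  rw [Pool.Agent.Helper14.LE.lt_apply]
  by_cases h : i = Fin.last k
  · subst h; simp
  · rw [if_neg h]
    simp [Ne.symm h]

theorem gr_lt (k : ℕ) : gr (lt : EE (k + 1) →L[ℝ] ℝ) = mk ((0 : EE k), (1 : ℝ)) := by
  unfold gr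
  rw [Finset.sum_eq_single (Fin.last k)]
  · rw [lt_single, if_pos rfl, one_smul, single_last]
  · intro i _ hi
    rw [lt_single, if_neg hi, zero_smul]
  · intro h; exact absurd (Finset.mem_univ _) h

theorem sq2_lt (k : ℕ) : sq2 (lt : EE (k + 1) →L[ℝ] ℝ) = 1 := by
  rw [← apply_gr, gr_lt, Pool.Agent.Helper14.LE.lt_mk]

theorem contDiff_gr {m : ℕ} {E : Type} [NormedAddCommGroup E] [NormedSpace ℝ E]
    {A : E → (EE m →L[ℝ] ℝ)} (hA : ContDiff ℝ ∞ A) : ContDiff ℝ ∞ (fun x => gr (A x)) := by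
  unfold gr
  exact ContDiff.sum (fun i _ => (hA.clm_apply contDiff_const).smul contDiff_const)

theorem contDiff_sq2 {m : ℕ} {E : Type} [NormedAddCommGroup E] [NormedSpace ℝ E]
    {A : E → (EE m →L[ℝ] ℝ)} (hA : ContDiff ℝ ∞ A) : ContDiff ℝ ∞ (fun x => sq2 (A x)) := by
  unfold sq2
  exact ContDiff.sum (fun i _ => (hA.clm_apply contDiff_const).pow 2)

theorem hTHE (hLAG : StLAG) (hFLB : StFLB) : StTHE := by
  intro k ι R hK himm
  have hR := hK.pos
  have hιd : Differentiable ℝ ι := hK.sm.differentiable (by simp)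
  have hfar : ∀ x, R ≤ ‖x‖ → ι x = (x, 0) := fun x hx => hK.far x (by rwa [sub_zero])
  have hnear : ∀ x, ‖x‖ ≤ R → ‖ι x‖ ≤ R := by
    intro x hx
    have h := hK.near x (by rwa [sub_zero])
    have h0 : ((0 : EE (k + 1)), (0 : EE (k + 1))) = (0 : WW (k + 1)) := rfl
    rwa [h0, sub_zero] at h
  -- the function
  obtain ⟨f, hf⟩ : ∃ f : EE (k + 1) → ℝ, ∀ x, f x = lt (ι x).1 := ⟨_, fun _ => rfl⟩
  have hfe : f = fun x => lt (ι x).1 := funext hf
  have hfs : ContDiff ℝ ∞ f := by
    rw [hfe]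
    exact lt.contDiff.comp (contDiff_fst.comp hK.sm)
  have hfd : Differentiable ℝ f := hfs.differentiable (by simp)
  have hDf : ∀ x u, fderiv ℝ f x u = lt (fderiv ℝ ι x u).1 := by
    intro x u
    have h1 : HasFDerivAt f ((lt.comp (ContinuousLinearMap.fst ℝ (EE (k + 1)) (EE (k + 1)))).comp
        (fderiv ℝ ι x)) x := by
      rw [hfe]
      exact (lt.comp (ContinuousLinearMap.fst ℝ (EE (k + 1)) (EE (k + 1)))).hasFDerivAt.comp x
        (hιd x).hasFDerivAt
    rw [h1.fderiv]
    rfl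
  have hDfne : ∀ x, fderiv ℝ f x ≠ 0 := by
    intro x hx
    have h1 : ∀ u, lt (fderiv ℝ ι x u).1 = 0 := fun u => by rw [← hDf, hx]; rfl
    set b : WW (k + 1) := ((0 : EE (k + 1)), mk ((0 : EE k), (1 : ℝ))) with hb
    obtain ⟨u, hu⟩ := hLAG.1 (k + 1) (fderiv ℝ ι x) (hK.iso x) (hK.imm x) b (by
      intro u
      simp only [om, hb]
      rw [Pool.Agent.Helper14.LE.inner_eq (mk ((0 : EE k), (1 : ℝ))),
        Pool.Agent.Helper14.LE.hd_mk, Pool.Agent.Helper14.LE.lt_mk, h1]
      simp)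
    have h2 : u = 0 := by
      apply himm x u
      · rw [← hu]
      · rw [← hu]
        simp [hb]
    rw [h2, map_zero] at hu
    have h3 : lt b.2 = 0 := by rw [hu]; simp
    rw [hb] at h3
    simp only [Pool.Agent.Helper14.LE.lt_mk] at h3
    exact one_ne_zero h3
  -- the field
  set v : EE (k + 1) → EE (k + 1) := fun x => (sq2 (fderiv ℝ f x))⁻¹ • gr (fderiv ℝ f x) with hv
  have hDfs : ContDiff ℝ ∞ (fderiv ℝ f) := hfs.fderiv_right (by simp)
  have hvs : ContDiff ℝ ∞ v :=
    ((contDiff_sq2 hDfs).inv (fun x => sq2_ne (hDfne x))).smul (contDiff_gr hDfs)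
  have hDfv : ∀ x, fderiv ℝ f x (v x) = 1 := by
    intro x
    simp only [hv]
    rw [map_smul, apply_gr, smul_eq_mul, inv_mul_cancel₀ (sq2_ne (hDfne x))]
  have hv1 : ∀ x, R < ‖x‖ → v x = mk ((0 : EE k), (1 : ℝ)) := by
    intro x hx
    have h1 : f =ᶠ[𝓝 x] lt := by
      filter_upwards [(isOpen_lt continuous_const continuous_norm).mem_nhds hx] with y hy
      rw [hf, hfar y (le_of_lt hy)]
    have h2 : fderiv ℝ f x = lt := by
      rw [h1.fderiv_eq]
      exact lt.fderiv
    simp only [hv]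
    rw [h2, sq2_lt, gr_lt, inv_one, one_smul]
  obtain ⟨K, hKL⟩ : ∃ K : ℝ≥0, LipschitzWith K v := by
    have h1 : ContDiff ℝ ∞ (fun x => v x - mk ((0 : EE k), (1 : ℝ))) := hvs.sub contDiff_const
    have h2 : HasCompactSupport (fun x => v x - mk ((0 : EE k), (1 : ℝ))) := by
      refine HasCompactSupport.intro (isCompact_closedBall (0 : EE (k + 1)) R) (fun x hx => ?_)
      rw [mem_closedBall_zero_iff, not_le] at hx
      rw [hv1 x hx, sub_self]
    obtain ⟨K, hK⟩ := h1.lipschitzWith_of_hasCompactSupport h2 (by simp)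
    refine ⟨K, LipschitzWith.of_dist_le_mul fun x y => ?_⟩
    have := hK.dist_le_mul x y
    rwa [dist_sub_right] at this
  obtain ⟨g, hg, hg0, hgd⟩ := hFLB (EE (k + 1)) v hvs ⟨K, hKL⟩
  have hguniq : ∀ c : ℝ → EE (k + 1), (∀ s, HasDerivAt c (v (c s)) s) → ∀ s, c s = g s (c 0) := by
    intro c hc s
    have h1 := ODE_solution_unique_univ (v := fun _ => v) (s := fun _ => Set.univ) (t₀ := 0)
      (K := K) (fun _ => hKL.lipschitzOnWith) (f := c) (g := fun s => g s (c 0))
      (fun t => ⟨hc t, mem_univ _⟩) (fun t => ⟨hgd t (c 0), mem_univ _⟩) (hg0 _).symm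
    exact congrFun h1 s
  have hgadd : ∀ s t x, g (s + t) x = g s (g t x) := by
    intro s t x
    have h1 := hguniq (fun r => g (r + t) x) (fun r => (hgd (r + t) x).comp_add_const r t) s
    simpa only [zero_add] using h1
  -- the function along the flow
  have hfg : ∀ s x, f (g s x) = f x + s := by
    intro s x
    have h1 : ∀ r, HasDerivAt (fun r => f (g r x) - r) 0 r := by
      intro r
      have h2 : HasDerivAt (fun r => f (g r x)) (fderiv ℝ f (g r x) (v (g r x))) r :=
        (hfd (g r x)).hasFDerivAt.comp_hasDerivAt r (hgd r x)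
      rw [hDfv] at h2
      have h3 := h2.fun_sub (hasDerivAt_id' r)
      rwa [sub_self] at h3
    have h2 := is_const_of_deriv_eq_zero (f := fun r => f (g r x) - r)
      (fun r => (h1 r).differentiableAt) (fun r => (h1 r).deriv) s 0
    simp only [hg0, sub_zero] at h2
    linarith
  -- the value of the function decides
  have hlarge : ∀ x, R < |f x| → R < ‖x‖ := by
    intro x hx
    by_contra h
    rw [not_lt] at h
    have h1 := hnear x h
    have h2 : |f x| ≤ ‖(ι x).1‖ := by rw [hf]; exact Pool.Agent.Helper14.LE.abs_lt_le _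
    have h3 := norm_fst_le (ι x)
    linarith
  have hfmk : ∀ (c : EE k) (s : ℝ), R ≤ |s| → f (mk (c, s)) = s := by
    intro c s hs
    have h1 := Pool.Agent.Helper14.LE.abs_lt_le (mk (c, s))
    rw [Pool.Agent.Helper14.LE.lt_mk] at h1
    rw [hf, hfar _ (hs.trans h1)]
    exact Pool.Agent.Helper14.LE.lt_mk _
  have hneg : |-(R + 1)| = R + 1 := by rw [abs_neg, abs_of_pos (by linarith)]
  have hmkadd : ∀ (c : EE k) (a s : ℝ), mk (c, a) + s • mk ((0 : EE k), (1 : ℝ)) = mk (c, a + s) := by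
    intro c a s
    rw [← map_smul, ← map_add]
    congr 1
    simp
  -- backward motion
  have hback : ∀ (c : EE k) (s : ℝ), s ≤ 0 → g s (mk (c, -(R + 1))) = mk (c, -(R + 1) + s) := by
    intro c s hs
    set p := mk (c, -(R + 1)) with hp
    have hfp : f p = -(R + 1) := hfmk c _ (by rw [hneg]; linarith)
    have h1 : ∀ r, r ≤ 0 → HasDerivAt (fun r => g r p - r • mk ((0 : EE k), (1 : ℝ))) 0 r := by
      intro r hr
      have h2 : R < ‖g r p‖ := by
        apply hlarge
        rw [hfg, hfp, abs_of_nonpos (by linarith)]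
        linarith
      have h3 := hgd r p
      rw [hv1 _ h2] at h3
      have h4 := h3.fun_sub ((hasDerivAt_id' r).smul_const (mk ((0 : EE k), (1 : ℝ))))
      rwa [one_smul, sub_self] at h4
    have h5 := constant_of_has_deriv_right_zero (f := fun r => g r p - r • mk ((0 : EE k), (1 : ℝ)))
      (a := s) (b := 0) (fun r hr => (h1 r hr.2).continuousAt.continuousWithinAt)
      (fun r hr => (h1 r hr.2.le).hasDerivWithinAt) 0 ⟨hs, le_refl 0⟩
    simp only [hg0, zero_smul, sub_zero] at h5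
    rw [eq_sub_iff_add_eq] at h5
    rw [← h5, hp, hmkadd]
  have hline : ∀ (c : EE k) (s : ℝ), R + 1 ≤ ‖c‖ → g s (mk (c, -(R + 1))) = mk (c, -(R + 1) + s) := by
    intro c s hc
    have h1 := hguniq (fun r => mk (c, -(R + 1) + r)) (fun r => by
      have h2 : R < ‖mk (c, -(R + 1) + r)‖ := by
        have h3 := Pool.Agent.Helper14.LE.norm_hd_le (mk (c, -(R + 1) + r))
        rw [Pool.Agent.Helper14.LE.hd_mk] at h3
        simp only at h3
        linarith
      rw [hv1 _ h2]
      have h4 : HasDerivAt (fun r : ℝ => mk (c, -(R + 1)) + r • mk ((0 : EE k), (1 : ℝ)))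
          ((1 : ℝ) • mk ((0 : EE k), (1 : ℝ))) r :=
        ((hasDerivAt_id r).smul_const _).const_add _
      rw [one_smul] at h4
      refine h4.congr_of_eventuallyEq (Eventually.of_forall (fun q => ?_))
      exact (hmkadd _ _ _).symm) s
    simp only [add_zero] at h1
    exact h1.symm
  set Θ : EE (k + 1) → EE (k + 1) := fun x => g (lt x + (R + 1)) (mk (hd x, -(R + 1))) with hΘ
  set Θi : EE (k + 1) → EE (k + 1) :=
    fun y => mk (hd (g (-(f y + (R + 1))) y), f y) with hΘi
  have hfΘ : ∀ x, f (Θ x) = lt x := by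
    intro x
    simp only [hΘ]
    rw [hfg, hfmk _ _ (by rw [hneg]; linarith)]
    ring
  refine ⟨Θ, Θi, ?_, ?_, ?_, ?_, fun x => by rw [← hf]; exact hfΘ x, ?_, ?_⟩
  · have h1 : ContDiff ℝ ∞
        (fun x : EE (k + 1) => ((lt x + (R + 1), mk (hd x, -(R + 1))) : ℝ × EE (k + 1))) :=
      (lt.contDiff.add contDiff_const).prodMk (mk.contDiff.comp (hd.contDiff.prodMk contDiff_const))
    exact hg.comp h1
  · have h1 : ContDiff ℝ ∞ (fun y : EE (k + 1) => ((-(f y + (R + 1)), y) : ℝ × EE (k + 1))) :=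
      (hfs.add contDiff_const).neg.prodMk contDiff_id
    have h2 : ContDiff ℝ ∞ (fun y : EE (k + 1) => g (-(f y + (R + 1))) y) := hg.comp h1
    exact mk.contDiff.comp ((hd.contDiff.comp h2).prodMk hfs)
  · intro x
    simp only [hΘi]
    rw [hfΘ]
    have h1 : g (-(lt x + (R + 1))) (Θ x) = mk (hd x, -(R + 1)) := by
      simp only [hΘ]
      rw [← hgadd, neg_add_cancel, hg0]
    rw [h1, Pool.Agent.Helper14.LE.hd_mk]
    exact Pool.Agent.Helper14.LE.mk_hd_lt x
  · intro y
    set z := g (-(f y + (R + 1))) y with hz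
    have hfz : f z = -(R + 1) := by rw [hz, hfg]; ring
    have h1 : R < ‖z‖ := hlarge z (by rw [hfz, hneg]; linarith)
    have h2 : lt z = -(R + 1) := by
      rw [← hfz, hf, hfar z h1.le]
    have h3 : mk (hd z, -(R + 1)) = z := by
      rw [← h2]
      exact Pool.Agent.Helper14.LE.mk_hd_lt z
    show g (lt (Θi y) + (R + 1)) (mk (hd (Θi y), -(R + 1))) = y
    have h4 : Θi y = mk (hd z, f y) := rfl
    rw [h4, Pool.Agent.Helper14.LE.hd_mk, Pool.Agent.Helper14.LE.lt_mk]
    simp only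
    rw [h3, hz, ← hgadd, add_neg_cancel, hg0]
  · intro x hx
    simp only [hΘ]
    rw [hback _ _ (by linarith)]
    have h1 : -(R + 1) + (lt x + (R + 1)) = lt x := by ring
    rw [h1, Pool.Agent.Helper14.LE.mk_hd_lt]
  · intro x hx
    simp only [hΘ]
    rw [hline _ _ hx]
    have h1 : -(R + 1) + (lt x + (R + 1)) = lt x := by ring
    rw [h1, Pool.Agent.Helper14.LE.mk_hd_lt]

end Pool.Agent.Helper26.LC
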